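import Pool.Agent.N931.PN.Stm4

/-!
PN/SQB (subtask 8869 of helper931): independence of the limits.
-/

set_option autoImplicit false
set_option linter.unusedSectionVars false

namespace Pool.Agent.N887.PN.SQB

open MeasureTheory Filter Topology

section

variable {X : Type} [PseudoMetricSpace X] [SecondCountableTopology X] [MeasurableSpace X]
  [BorelSpace X]

theorem weak {Y : Type} [PseudoMetricSpace Y] [MeasurableSpace Y] [OpensMeasurableSpace Y]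
    {P : ℕ → ProbabilityMeasure Y} {μ : ProbabilityMeasure Y}
    (h : Tendsto P atTop (𝓝 μ)) (f : Y → ℝ) (hf : Continuous f) (M : ℝ) (hM : ∀ x, |f x| ≤ M) :
    Tendsto (fun i => ∫ x, f x ∂(P i : Measure Y)) atTop (𝓝 (∫ x, f x ∂(μ : Measure Y))) :=
  (ProbabilityMeasure.tendsto_iff_forall_integral_tendsto.1 h)
    (BoundedContinuousFunction.ofNormedAddCommGroup f hf M hM)

theorem lip_cont {f : X → ℝ} (hf : ∀ x y, |f x - f y| ≤ dist x y) : Continuous f := by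
  have : LipschitzWith 1 f := LipschitzWith.of_dist_le_mul fun x y => by
    rw [NNReal.coe_one, one_mul, Real.dist_eq]
    exact hf x y
  exact this.continuous

theorem core (L : ℝ → ProbabilityMeasure X) (L2 : ℝ → unitInterval → ProbabilityMeasure (X × X))
    (hTGT : ∀ δ : ℕ → ℝ, (∀ i, 0 < δ i) → Tendsto δ atTop (𝓝 0) →
      ∃ φ : ℕ → ℕ, StrictMono φ ∧ ∃ μ : ProbabilityMeasure X,
        Tendsto (fun i => L (δ (φ i))) atTop (𝓝 μ))
    (hP2 : ∃ C c δ0 : ℝ, 0 < C ∧ 0 < c ∧ 0 < δ0 ∧ ∀ δ : ℝ, 0 < δ → δ ≤ δ0 →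
      ∀ ε : unitInterval, 0 < (ε : ℝ) → ∀ f g : X → ℝ, (∀ γ γ', |f γ - f γ'| ≤ dist γ γ') →
        (∀ γ, |f γ| ≤ 1) → (∀ γ γ', |g γ - g γ'| ≤ dist γ γ') → (∀ γ, |g γ| ≤ 1) →
        |(∫ q, f q.1 * g q.2 ∂(L2 δ ε : Measure (X × X))) -
          (∫ γ, f γ ∂(L δ : Measure X)) * ∫ γ, g γ ∂(L δ : Measure X)| ≤
            C * ((ε : ℝ) * δ ^ (-(3 / 4) : ℝ)) ^ (-c))
    (hP3 : ∃ f : X → ℝ, (∀ γ γ', |f γ - f γ'| ≤ dist γ γ') ∧
      (∀ γ, |f γ| ≤ 1) ∧ ∃ c C δ0 : ℝ, 0 < c ∧ 0 < C ∧ 0 < δ0 ∧ ∀ δ : ℝ, 0 < δ → δ ≤ δ0 →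
      ∀ ε : unitInterval,
        ((ε : ℝ) ≤ 1 / 2 → c * Real.exp (-(C * ((ε : ℝ) * δ ^ (-(3 / 4) : ℝ)))) ≤
          (∫ q, f q.1 * f q.2 ∂(L2 δ ε : Measure (X × X))) -
            (∫ γ, f γ ∂(L δ : Measure X)) ^ 2) ∧
        c * min 1 ((ε : ℝ) * δ ^ (-(3 / 4) : ℝ)) ≤
          ∫ q, (f q.1 - f q.2) ^ 2 ∂(L2 δ ε : Measure (X × X)))
    (hPRD : ∀ (P : ℕ → ProbabilityMeasure (X × X)) (μ ν : ProbabilityMeasure X),
      (∀ f g : X → ℝ, (∀ x y, |f x - f y| ≤ dist x y) → (∀ x, |f x| ≤ 1) →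
        (∀ x y, |g x - g y| ≤ dist x y) → (∀ x, |g x| ≤ 1) →
        Tendsto (fun i => ∫ q, f q.1 * g q.2 ∂(P i : Measure (X × X))) atTop
          (𝓝 ((∫ x, f x ∂(μ : Measure X)) * ∫ x, g x ∂(ν : Measure X)))) →
      Tendsto P atTop (𝓝 (μ.prod ν)))
    (δ : ℕ → ℝ) (ε : ℕ → unitInterval) (hδ : ∀ i, 0 < δ i) (hδ0 : Tendsto δ atTop (𝓝 0)) :
    (Tendsto (fun i => (ε i : ℝ) * (δ i) ^ (-(3 / 4) : ℝ)) atTop atTop ↔
      ∀ φ : ℕ → ℕ, StrictMono φ → ∀ μ : ProbabilityMeasure X,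
        Tendsto (fun i => L (δ (φ i))) atTop (𝓝 μ) →
          Tendsto (fun i => L2 (δ (φ i)) (ε (φ i))) atTop (𝓝 (μ.prod μ))) := by
  constructor
  · intro hΛ φ hφ μ hμ
    apply hPRD
    intro f g hf hf1 hg hg1
    obtain ⟨C, c, δ0, hC, hc, hδ0', hP⟩ := hP2
    have hφt := hφ.tendsto_atTop
    have hΛφ := hΛ.comp hφt
    have e1 : Tendsto (fun i => C * ((ε (φ i) : ℝ) * δ (φ i) ^ (-(3 / 4) : ℝ)) ^ (-c)) atTop
        (𝓝 0) := by
      have h1 := ((tendsto_rpow_neg_atTop hc).comp hΛφ).const_mul C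
      rw [mul_zero] at h1
      exact h1
    have e2 : ∀ᶠ i in atTop, |(∫ q, f q.1 * g q.2 ∂(L2 (δ (φ i)) (ε (φ i)) : Measure (X × X))) -
        (∫ γ, f γ ∂(L (δ (φ i)) : Measure X)) * ∫ γ, g γ ∂(L (δ (φ i)) : Measure X)| ≤
        C * ((ε (φ i) : ℝ) * δ (φ i) ^ (-(3 / 4) : ℝ)) ^ (-c) := by
      filter_upwards [(hδ0.comp hφt).eventually (gt_mem_nhds hδ0'),
        hΛφ.eventually (eventually_gt_atTop 0)] with i h1 h2
      simp only [Function.comp_apply] at h1 h2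
      refine hP _ (hδ _) h1.le _ ?_ f g hf hf1 hg hg1
      exact pos_of_mul_pos_left h2 (Real.rpow_nonneg (hδ _).le _)
    have e3 : Tendsto (fun i => (∫ q, f q.1 * g q.2 ∂(L2 (δ (φ i)) (ε (φ i)) : Measure (X × X))) -
        (∫ γ, f γ ∂(L (δ (φ i)) : Measure X)) * ∫ γ, g γ ∂(L (δ (φ i)) : Measure X)) atTop (𝓝 0) :=
      squeeze_zero_norm' e2 e1
    have e4 := (weak hμ f (lip_cont hf) 1 hf1).mul (weak hμ g (lip_cont hg) 1 hg1)
    have e5 := e3.add e4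
    rw [zero_add] at e5
    refine e5.congr fun i => ?_
    ring
  · intro hall
    by_contra hnot
    rw [tendsto_atTop] at hnot
    push Not at hnot
    obtain ⟨M, hM⟩ := hnot
    obtain ⟨φ₁, hφ₁, hΛ⟩ := extraction_of_frequently_atTop hM
    obtain ⟨φ₂, hφ₂, μ, hμ⟩ := hTGT (fun i => δ (φ₁ i)) (fun i => hδ _)
      (hδ0.comp hφ₁.tendsto_atTop)
    have h2 := hall (fun i => φ₁ (φ₂ i)) (hφ₁.comp hφ₂) μ hμ
    obtain ⟨f, hf, hf1, c, C, δ0, hc, hC, hδ0', hP⟩ := hP3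
    have hφt : Tendsto (fun i => φ₁ (φ₂ i)) atTop atTop := (hφ₁.comp hφ₂).tendsto_atTop
    have hcf := lip_cont hf
    have e1 := weak h2 (fun q => f q.1 * f q.2)
      ((hcf.comp continuous_fst).mul (hcf.comp continuous_snd)) 1 (fun q => by
        rw [abs_mul]
        exact mul_le_one₀ (hf1 _) (abs_nonneg _) (hf1 _))
    have e2 : ∫ q : X × X, f q.1 * f q.2 ∂((μ.prod μ : ProbabilityMeasure (X × X)) :
        Measure (X × X)) = (∫ x, f x ∂(μ : Measure X)) ^ 2 := by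
      rw [ProbabilityMeasure.toMeasure_prod, integral_prod_mul, sq]
    rw [e2] at e1
    have e3 := (weak hμ f hcf 1 hf1).pow 2
    have e4 := e1.sub e3
    rw [sub_self] at e4
    have e5 : ∀ᶠ i in atTop, c * Real.exp (-(C * M)) ≤
        (∫ q, f q.1 * f q.2 ∂(L2 (δ (φ₁ (φ₂ i))) (ε (φ₁ (φ₂ i))) : Measure (X × X))) -
            (∫ γ, f γ ∂(L (δ (φ₁ (φ₂ i))) : Measure X)) ^ 2 := by
      have h3 : Tendsto (fun i => M * (δ (φ₁ (φ₂ i))) ^ (3 / 4 : ℝ)) atTop (𝓝 0) := by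
        have h4 := ((hδ0.comp hφt).rpow_const (p := 3 / 4) (Or.inr (by norm_num))).const_mul M
        rw [Real.zero_rpow (by norm_num), mul_zero] at h4
        exact h4
      filter_upwards [(hδ0.comp hφt).eventually (gt_mem_nhds hδ0'),
        h3.eventually (gt_mem_nhds (show (0 : ℝ) < 1 / 2 by norm_num))] with i h5 h6
      simp only [Function.comp_apply] at h5
      have h7 := hΛ (φ₂ i)
      have hd := hδ (φ₁ (φ₂ i))
      have h8 : (ε (φ₁ (φ₂ i)) : ℝ) ≤ 1 / 2 := by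
        have h9 : (ε (φ₁ (φ₂ i)) : ℝ) = (ε (φ₁ (φ₂ i)) : ℝ) * (δ (φ₁ (φ₂ i))) ^ (-(3 / 4) : ℝ) *
            (δ (φ₁ (φ₂ i))) ^ (3 / 4 : ℝ) := by
          rw [mul_assoc, ← Real.rpow_add hd]
          norm_num
        rw [h9]
        exact (mul_le_mul_of_nonneg_right h7.le (Real.rpow_nonneg hd.le _)).trans h6.le
      refine le_trans ?_ ((hP _ hd h5.le (ε (φ₁ (φ₂ i)))).1 h8)
      refine mul_le_mul_of_nonneg_left (Real.exp_le_exp.2 ?_) hc.le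
      exact neg_le_neg (mul_le_mul_of_nonneg_left h7.le hC.le)
    have e6 := ge_of_tendsto e4 e5
    have e7 : 0 < c * Real.exp (-(C * M)) := by positivity
    linarith

end

open Pool.Agent.N931.PN H974 H12S H389NS H984N H984P H342P Pool.Agent.N116.EW in
open H342L (cdist Curve) in
theorem main : S_TGT → S_P2 → S_P3 → S_PRD → S_INT → S_SQB := by
  intro hTGT hP2 hP3 hPRD _ R δ ε hδ hδ0
  exact core (fun δ => law R δ pc) (fun δ ε => law2 R δ ε) (hTGT R) (hP2 R) (hP3 R)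
    (hPRD Curve) δ ε hδ hδ0

end Pool.Agent.N887.PN.SQB
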